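import Pool.Agent.Helper72.EP.Spec1

/-! # MP_45fa85_co, module FIN: the final packing -/

namespace ErdPos

open Finset

lemma fin_card_filter {α : Type} (p : α → Bool) (O : List α) :
    (univ.filter (fun i : Fin O.length => p (O.get i) = true)).card = (O.filter p).length := by
  induction O with
  | nil => simp
  | cons a O ih =>
    have h := Fin.card_filter_univ_succ (n := O.length)
      (fun i : Fin (O.length + 1) => p ((a :: O).get i) = true)
    have h' : (univ.filter (fun i : Fin (a :: O).length => p ((a :: O).get i) = true)).card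
      = (univ.filter (fun i : Fin (O.length + 1) => p ((a :: O).get i) = true)).card := rfl
    rw [h', h]
    have e0 : (a :: O).get (0 : Fin (O.length + 1)) = a := rfl
    have e1 : ((Function.comp (fun i : Fin (O.length + 1) => p ((a :: O).get i) = true)
        Fin.succ)) = (fun i : Fin O.length => p (O.get i) = true) := rfl
    by_cases hp : p a = true
    · rw [e0, if_pos hp, List.filter_cons_of_pos hp, List.length_cons, ← ih]
      rfl
    · rw [e0, if_neg hp, List.filter_cons_of_neg hp, ← ih]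
      rfl

section
variable {V : Type} [Fintype V] [DecidableEq V] {G : SimpleGraph V} {F : Finset V → Prop}

lemma fin_close (h1 : ST_CLO2) (h2 : ST_Q4) {W T B : Finset V} {ρ : List V}
    {R : V × Bool → Finset (V × Bool)} (hTW : T ⊆ W) (hR : Rooted G W T R)
    (hρ : ∀ t ∈ ρ, t ∈ T) (hnd : ρ.Nodup) (hP : Prom G F (W \ T) B ρ) :
    ∃ X : Finset V, X ⊆ W \ T ∧ Has F (B ∪ X) ∧
      ∀ v ∈ X, ∃ j : Bool, ∃ t ∈ ρ, ∃ i : Bool, (v, j) ∈ R (t, i) := by
  match ρ, hρ, hnd, hP with
  | [], hρ, hnd, hP =>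
    refine ⟨∅, empty_subset _, ?_, ?_⟩
    · rw [union_empty]; exact hP
    · intro v hv
      exact absurd hv (notMem_empty _)
  | [a], hρ, hnd, hP => exact absurd hP (by simp [Prom])
  | [a, b], hρ, hnd, hP =>
    have ha : a ∈ T := hρ a (by simp)
    have hb : b ∈ T := hρ b (by simp)
    have hab : a ≠ b := by
      intro h
      subst h
      simp at hnd
    obtain ⟨L, hL, hLc, hLa, hLb, hLv⟩ := h1 V G W T R hTW hR a ha b hb hab false
    refine ⟨L, hL, hP L hL hLc hLa hLb, ?_⟩
    intro v hv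
    obtain ⟨j, hj⟩ := hLv v hv
    rcases mem_union.1 hj with hj | hj
    · exact ⟨j, a, by simp, false, hj⟩
    · exact ⟨j, b, by simp, false, hj⟩
  | [a, b, c], hρ, hnd, hP => exact absurd hP (by simp [Prom])
  | [a, b, c, d], hρ, hnd, hP =>
    have ha : a ∈ T := hρ a (by simp)
    have hb : b ∈ T := hρ b (by simp)
    have hc : c ∈ T := hρ c (by simp)
    have hd : d ∈ T := hρ d (by simp)
    have hne : a ≠ b ∧ a ≠ c ∧ a ≠ d ∧ b ≠ c ∧ b ≠ d ∧ c ≠ d := by
      simp only [List.nodup_cons, List.mem_cons, List.not_mem_nil, not_or] at hnd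
      tauto
    obtain ⟨hab, hac, had, hbc, hbd, hcd⟩ := hne
    obtain ⟨Qac, ac1, ac2, ac3, ac4, ac5⟩ := h1 V G W T R hTW hR a ha c hc hac false
    obtain ⟨Qbd, bd1, bd2, bd3, bd4, bd5⟩ := h1 V G W T R hTW hR b hb d hd hbd false
    obtain ⟨Qad, ad1, ad2, ad3, ad4, ad5⟩ := h1 V G W T R hTW hR a ha d hd had true
    obtain ⟨Qbc, bc1, bc2, bc3, bc4, bc5⟩ := h1 V G W T R hTW hR b hb c hc hbc true
    have hnot : ∀ x ∈ T, ∀ Q : Finset V, Q ⊆ W \ T → x ∉ Q := fun x hx Q hQ hxQ =>
      (mem_sdiff.1 (hQ hxQ)).2 hx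
    have hdis : ∀ z z' : V × Bool, z.1 ∈ T → z'.1 ∈ T → z ≠ z' → ∀ w, w ∈ R z → w ∈ R z' →
        False := fun z z' hz hz' hne w hw hw' =>
      (Finset.disjoint_left.1 (hR.2 z z' hz hz' hne).1) hw hw'
    have hall : ∀ v, ¬ (v ∈ Qac ∧ v ∈ Qbd ∧ v ∈ Qad ∧ v ∈ Qbc) := by
      rintro v ⟨v1, v2, v3, -⟩
      obtain ⟨j1, hj1⟩ := ac5 v v1
      obtain ⟨j2, hj2⟩ := bd5 v v2
      obtain ⟨j3, hj3⟩ := ad5 v v3
      have g1 : ∃ t ∈ T, (t = a ∨ t = c) ∧ (v, j1) ∈ R (t, false) := by
        rcases mem_union.1 hj1 with h | h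
        · exact ⟨a, ha, Or.inl rfl, h⟩
        · exact ⟨c, hc, Or.inr rfl, h⟩
      have g2 : ∃ t ∈ T, (t = b ∨ t = d) ∧ (v, j2) ∈ R (t, false) := by
        rcases mem_union.1 hj2 with h | h
        · exact ⟨b, hb, Or.inl rfl, h⟩
        · exact ⟨d, hd, Or.inr rfl, h⟩
      have g3 : ∃ t ∈ T, (v, j3) ∈ R (t, true) := by
        rcases mem_union.1 hj3 with h | h
        · exact ⟨a, ha, h⟩
        · exact ⟨d, hd, h⟩
      obtain ⟨t1, ht1, e1, k1⟩ := g1
      obtain ⟨t2, ht2, e2, k2⟩ := g2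
      obtain ⟨t3, ht3, k3⟩ := g3
      have n12 : t1 ≠ t2 := by
        rintro rfl
        rcases e1 with rfl | rfl <;> rcases e2 with h | h
        · exact hab h
        · exact had h
        · exact hbc h.symm
        · exact hcd h
      have j12 : j1 ≠ j2 := by
        rintro rfl
        exact hdis (t1, false) (t2, false) ht1 ht2 (fun h => n12 (congrArg Prod.fst h)) _ k1 k2
      have j13 : j1 ≠ j3 := by
        rintro rfl
        exact hdis (t1, false) (t3, true) ht1 ht3
          (fun h => Bool.noConfusion (congrArg Prod.snd h)) _ k1 k3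
      have j23 : j2 ≠ j3 := by
        rintro rfl
        exact hdis (t2, false) (t3, true) ht2 ht3
          (fun h => Bool.noConfusion (congrArg Prod.snd h)) _ k2 k3
      revert j12 j13 j23
      cases j1 <;> cases j2 <;> cases j3 <;> simp
    obtain ⟨L, L', hL, hL', hLL, hLc, hLc', hLa, hLb, hor⟩ := h2 V G a b c d Qac Qbd Qad Qbc hnd
      (fun x hx => by
        have hxT : x ∈ T := hρ x hx
        exact ⟨hnot x hxT _ ac1, hnot x hxT _ bd1, hnot x hxT _ ad1, hnot x hxT _ bc1⟩)
      ⟨ac2, bd2, ad2, bc2⟩ ⟨ac3, ac4⟩ ⟨bd3, bd4⟩ ⟨ad3, ad4⟩ ⟨bc3, bc4⟩ hall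
    have hQ : Qac ∪ Qbd ∪ Qad ∪ Qbc ⊆ W \ T :=
      union_subset (union_subset (union_subset ac1 bd1) ad1) bc1
    refine ⟨L ∪ L', union_subset (hL.trans hQ) (hL'.trans hQ),
      hP L L' (hL.trans hQ) (hL'.trans hQ) hLL hLc hLc' hLa hLb hor, ?_⟩
    intro v hv
    have hv' : v ∈ Qac ∪ Qbd ∪ Qad ∪ Qbc := (union_subset hL hL') hv
    rcases mem_union.1 hv' with hv' | hv'
    · rcases mem_union.1 hv' with hv' | hv'
      · rcases mem_union.1 hv' with hv' | hv'
        · obtain ⟨j, hj⟩ := ac5 v hv'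
          rcases mem_union.1 hj with hj | hj
          · exact ⟨j, a, by simp, false, hj⟩
          · exact ⟨j, c, by simp, false, hj⟩
        · obtain ⟨j, hj⟩ := bd5 v hv'
          rcases mem_union.1 hj with hj | hj
          · exact ⟨j, b, by simp, false, hj⟩
          · exact ⟨j, d, by simp, false, hj⟩
      · obtain ⟨j, hj⟩ := ad5 v hv'
        rcases mem_union.1 hj with hj | hj
        · exact ⟨j, a, by simp, true, hj⟩
        · exact ⟨j, d, by simp, true, hj⟩
    · obtain ⟨j, hj⟩ := bc5 v hv'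
      rcases mem_union.1 hj with hj | hj
      · exact ⟨j, b, by simp, true, hj⟩
      · exact ⟨j, c, by simp, true, hj⟩
  | a :: b :: c :: d :: e :: l, hρ, hnd, hP => exact absurd hP (by simp [Prom])

end

theorem st_FIN (h1 : ST_CLO2) (h2 : ST_Q4) : ST_FIN := by
  intro V _ _ G F W0 W T O R hS hR
  obtain ⟨hTW, hWW, -, hnd, hT, hO, hcnt⟩ := hS
  rw [List.nodup_flatten] at hnd
  obtain ⟨hnd1, hnd2⟩ := hnd
  have hmem : ∀ i : Fin O.length, O.get i ∈ O := fun i => List.get_mem O i
  have hdis : ∀ i j : Fin O.length, i ≠ j → ∀ t, t ∈ (O.get i).2 → t ∈ (O.get j).2 → False := by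
    have key : ∀ i j : Fin O.length, i < j → ∀ t, t ∈ (O.get i).2 → t ∈ (O.get j).2 → False := by
      intro i j hij t h1 h2
      rw [List.pairwise_map] at hnd2
      have := List.pairwise_iff_get.1 hnd2 i j hij
      exact this h1 h2
    intro i j hij t h1 h2
    rcases lt_or_gt_of_ne hij with h | h
    · exact key i j h t h1 h2
    · exact key j i h t h2 h1
  have hX : ∀ i : Fin O.length, ∃ X : Finset V, X ⊆ W \ T ∧ Has F ((O.get i).1 ∪ X) ∧
      ∀ v ∈ X, ∃ j : Bool, ∃ t ∈ (O.get i).2, ∃ e : Bool, (v, j) ∈ R (t, e) := by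
    intro i
    obtain ⟨-, -, -, hP⟩ := hO _ (hmem i)
    refine fin_close h1 h2 hTW hR (fun t ht => ?_) ?_ hP
    · rw [hT, List.mem_flatten]
      exact ⟨(O.get i).2, List.mem_map.2 ⟨O.get i, hmem i, rfl⟩, ht⟩
    · exact hnd1 _ (List.mem_map.2 ⟨O.get i, hmem i, rfl⟩)
  choose X hXW hXF hXv using hX
  choose M hM hMX using hXF
  refine ⟨M, fun i => ⟨hM i, (hMX i).trans (union_subset (hO _ (hmem i)).1
    ((hXW i).trans (sdiff_subset.trans hWW)))⟩, fun v => ?_⟩
  have hsub : univ.filter (fun i => v ∈ M i) ⊆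
      univ.filter (fun i => v ∈ (O.get i).1) ∪ univ.filter (fun i => v ∈ X i) := by
    intro i hi
    have hi' := (mem_filter.1 hi).2
    rcases mem_union.1 (hMX i hi') with h | h
    · exact mem_union_left _ (mem_filter.2 ⟨mem_univ _, h⟩)
    · exact mem_union_right _ (mem_filter.2 ⟨mem_univ _, h⟩)
  have hb : (univ.filter (fun i : Fin O.length => v ∈ (O.get i).1)).card ≤ 2 := by
    have h := fin_card_filter (fun o : Finset V × List V => decide (v ∈ o.1)) O
    simp only [decide_eq_true_eq] at h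
    rw [h]
    exact hcnt v
  have hx : (univ.filter (fun i : Fin O.length => v ∈ X i)).card ≤ 2 := by
    have hj : ∀ i : Fin O.length, ∃ j : Bool, v ∈ X i → ∃ t ∈ (O.get i).2, ∃ e : Bool,
        (v, j) ∈ R (t, e) := by
      intro i
      by_cases h : v ∈ X i
      · obtain ⟨j, hj⟩ := hXv i v h
        exact ⟨j, fun _ => hj⟩
      · exact ⟨false, fun h' => absurd h' h⟩
    choose j hj using hj
    have hinj : Set.InjOn j (univ.filter (fun i : Fin O.length => v ∈ X i) : Finset _) := by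
      intro a ha b hb hab
      have ha' : v ∈ X a := by simpa using ha
      have hb' : v ∈ X b := by simpa using hb
      by_contra hne
      obtain ⟨t, ht, e, hte⟩ := hj a ha'
      obtain ⟨t', ht', e', hte'⟩ := hj b hb'
      have htt : t ≠ t' := by
        rintro rfl
        exact hdis a b hne t ht ht'
      have hTt : ∀ i : Fin O.length, ∀ s ∈ (O.get i).2, s ∈ T := by
        intro i s hs
        rw [hT, List.mem_flatten]
        exact ⟨(O.get i).2, List.mem_map.2 ⟨O.get i, hmem i, rfl⟩, hs⟩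
      rw [hab] at hte
      exact (Finset.disjoint_left.1 (hR.2 (t, e) (t', e') (hTt a t ht) (hTt b t' ht')
        (fun h => htt (congrArg Prod.fst h))).1) hte hte'
    have h := card_le_card_of_injOn (s := univ.filter (fun i : Fin O.length => v ∈ X i))
      (t := (univ : Finset Bool)) j (fun i _ => by simp) hinj
    simpa using h
  calc _ ≤ _ := card_le_card hsub
    _ ≤ _ := card_union_le _ _
    _ ≤ 2 + 2 := Nat.add_le_add hb hx

end ErdPos
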