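import Pool.Agent.Helper72.EP.Spec1

/-! # MP_45fa85_co, module Q4: two disjoint links from four links -/

namespace ErdPos

open Finset

section
variable {V : Type} [Fintype V] [DecidableEq V]

/-- the graph without the edges inside `T` -/
def q4G (G : SimpleGraph V) (T : Finset V) : SimpleGraph V where
  Adj x y := G.Adj x y ∧ ¬ (x ∈ T ∧ y ∈ T)
  symm := by
    constructor
    rintro x y ⟨h, h'⟩
    exact ⟨h.symm, fun hh => h' ⟨hh.2, hh.1⟩⟩
  loopless := by
    constructor
    rintro x ⟨h, _⟩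
    exact G.loopless.irrefl _ h

variable {G : SimpleGraph V} {T : Finset V}

lemma q4_conn_of {Q : Finset V} (h : Conn (q4G G T) Q) : Conn G Q := by
  refine ⟨h.1, fun B hB hne hBQ => ?_⟩
  obtain ⟨x, hx, y, hy, hxy⟩ := h.2 B hB hne hBQ
  exact ⟨x, hx, y, hy, hxy.1⟩

lemma q4_ad_of {x : V} {Q : Finset V} (h : Ad (q4G G T) x Q) : Ad G x Q := by
  obtain ⟨y, hy, hxy⟩ := h
  exact ⟨y, hy, hxy.1⟩

lemma q4_conn {Q : Finset V} (h : Conn G Q) (hd : ∀ x ∈ Q, x ∉ T) : Conn (q4G G T) Q := by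
  refine ⟨h.1, fun B hB hne hBQ => ?_⟩
  obtain ⟨x, hx, y, hy, hxy⟩ := h.2 B hB hne hBQ
  exact ⟨x, hx, y, hy, hxy, fun hh => hd x (hB hx) hh.1⟩

lemma q4_ad {x : V} {Q : Finset V} (h : Ad G x Q) (hd : ∀ x ∈ Q, x ∉ T) :
    Ad (q4G G T) x Q := by
  obtain ⟨y, hy, hxy⟩ := h
  exact ⟨y, hy, hxy, fun hh => hd y hy hh.2⟩

/-- a link `x - Q - y` has to be cut -/
lemma q4_cut {W U Q : Finset V} {x y : V} {H : SimpleGraph V} (hQ : Conn H Q) (hx : Ad H x Q)
    (hy : Ad H y Q) (hQW : Q ⊆ W) (hyW : y ∈ W) (hxU : x ∈ U) (hyU : y ∉ U) :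
    ∃ s ∈ Nb H W U, s ∈ Q ∨ s = y := by
  have h1 : Conn H (insert x (insert y Q)) := by
    have h2 : Conn H (insert y Q) := by
      obtain ⟨w, hw, hyw⟩ := hy
      exact hQ.insert hw hyw.symm
    obtain ⟨w, hw, hxw⟩ := hx
    exact h2.insert (mem_insert_of_mem hw) hxw.symm
  have hne : insert x (insert y Q) ∩ U ≠ insert x (insert y Q) := by
    intro h
    have : y ∈ insert x (insert y Q) ∩ U := by
      rw [h]
      exact mem_insert_of_mem (mem_insert_self _ _)
    exact hyU (mem_inter.1 this).2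
  obtain ⟨u, hu, w, hw, huw⟩ := h1.2 (insert x (insert y Q) ∩ U) inter_subset_left
    ⟨x, mem_inter.2 ⟨mem_insert_self _ _, hxU⟩⟩ hne
  rw [mem_sdiff, mem_inter] at hw
  have hwU : w ∉ U := fun h => hw.2 ⟨hw.1, h⟩
  have hwx : w ≠ x := by
    rintro rfl
    exact hwU hxU
  have hw' : w = y ∨ w ∈ Q := by
    rcases mem_insert.1 hw.1 with h | h
    · exact absurd h hwx
    · exact mem_insert.1 h
  refine ⟨w, mem_Nb.2 ⟨?_, hwU, u, (mem_inter.1 hu).2, huw.symm⟩, hw'.symm⟩
  rcases hw' with rfl | h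
  · exact hyW
  · exact hQW h

/-- shrinking of a link between two roots -/
lemma q4_shrink {a x : V} {L Q : Finset V} (hL : Conn (q4G G T) L) (ha : a ∈ L) (hx : x ∈ L)
    (hax : a ≠ x) (haT : a ∈ T) (hxT : x ∈ T) (hLQ : ∀ v ∈ L, v = a ∨ v = x ∨ v ∈ Q) :
    ∃ L', L' ⊆ L ∧ L' ⊆ Q ∧ Conn G L' ∧ Ad G a L' ∧ Ad G x L' := by
  obtain ⟨L', h1, h2, h3, h4, h5, h6⟩ := link2 hL ha hx hax (fun h => h.2 ⟨haT, hxT⟩)
  refine ⟨L', h1, fun v hv => ?_, q4_conn_of h4, q4_ad_of h5, q4_ad_of h6⟩
  rcases hLQ v (h1 hv) with rfl | rfl | h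
  · exact absurd hv h2
  · exact absurd hv h3
  · exact h

end

theorem st_Q4 (h : ST_MENW) : ST_Q4 := by
  intro V _ _ G a b c d Qac Qbd Qad Qbc hnd hT hconn hac hbd had hbc hall
  have hne : a ≠ b ∧ a ≠ c ∧ a ≠ d ∧ b ≠ c ∧ b ≠ d ∧ c ≠ d := by
    simp only [List.nodup_cons, List.mem_cons, List.not_mem_nil, not_or] at hnd
    tauto
  obtain ⟨nab, nac, nad, nbc, nbd, ncd⟩ := hne
  obtain ⟨cac, cbd, cad, cbc⟩ := hconn
  have ha := hT a (by simp)
  have hb := hT b (by simp)
  have hc := hT c (by simp)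
  have hd := hT d (by simp)
  obtain ⟨Q, hQdef⟩ : ∃ Q, Q = Qac ∪ Qbd ∪ Qad ∪ Qbc := ⟨_, rfl⟩
  obtain ⟨T, hTdef⟩ : ∃ T : Finset V, T = {a, b, c, d} := ⟨_, rfl⟩
  have haT : a ∈ T := by rw [hTdef]; simp
  have hbT : b ∈ T := by rw [hTdef]; simp
  have hcT : c ∈ T := by rw [hTdef]; simp
  have hdT : d ∈ T := by rw [hTdef]; simp
  have sac : Qac ⊆ Q := by
    rw [hQdef]; intro v hv; simp [hv]
  have sbd : Qbd ⊆ Q := by
    rw [hQdef]; intro v hv; simp [hv]
  have sad : Qad ⊆ Q := by
    rw [hQdef]; intro v hv; simp [hv]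
  have sbc : Qbc ⊆ Q := by
    rw [hQdef]; intro v hv; simp [hv]
  have hQT : ∀ v ∈ Q, v ∉ T := by
    intro v hv hvT
    rw [hQdef] at hv
    simp only [mem_union] at hv
    rw [hTdef] at hvT
    simp only [mem_insert, mem_singleton] at hvT
    rcases hvT with rfl | rfl | rfl | rfl
    · tauto
    · tauto
    · tauto
    · tauto
  have dac : ∀ v ∈ Qac, v ∉ T := fun v hv => hQT v (sac hv)
  have dbd : ∀ v ∈ Qbd, v ∉ T := fun v hv => hQT v (sbd hv)
  have dad : ∀ v ∈ Qad, v ∉ T := fun v hv => hQT v (sad hv)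
  have dbc : ∀ v ∈ Qbc, v ∉ T := fun v hv => hQT v (sbc hv)
  have hQW : Q ⊆ Q ∪ T := subset_union_left
  have hTW : T ⊆ Q ∪ T := subset_union_right
  obtain ⟨L, hL, hLd⟩ := h V (q4G G T) (Q ∪ T) {a, b} {c, d} 2
    (by
      intro v hv
      rw [mem_insert, mem_singleton] at hv
      rcases hv with rfl | rfl
      · exact hTW haT
      · exact hTW hbT)
    (by
      intro v hv
      rw [mem_insert, mem_singleton] at hv
      rcases hv with rfl | rfl
      · exact hTW hcT
      · exact hTW hdT)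
    (by
      intro U hU hUB
      have hcU : c ∉ U := fun hh => (Finset.disjoint_left.1 hUB) hh (by simp)
      have hdU : d ∉ U := fun hh => (Finset.disjoint_left.1 hUB) hh (by simp)
      by_contra hlt
      push Not at hlt
      have hS : ∀ s t, s ∈ Nb (q4G G T) (Q ∪ T) U ∪ ({a, b} \ U) →
          t ∈ Nb (q4G G T) (Q ∪ T) U ∪ ({a, b} \ U) → s = t := by
        intro s t hs ht
        exact Finset.card_le_one.1 (by omega) s hs t ht
      have kac := fun hh : a ∈ U => q4_cut (q4_conn cac dac) (q4_ad hac.1 dac) (q4_ad hac.2 dac)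
        (sac.trans hQW) (hTW hcT) hh hcU
      have kad := fun hh : a ∈ U => q4_cut (q4_conn cad dad) (q4_ad had.1 dad) (q4_ad had.2 dad)
        (sad.trans hQW) (hTW hdT) hh hdU
      have kbc := fun hh : b ∈ U => q4_cut (q4_conn cbc dbc) (q4_ad hbc.1 dbc) (q4_ad hbc.2 dbc)
        (sbc.trans hQW) (hTW hcT) hh hcU
      have kbd := fun hh : b ∈ U => q4_cut (q4_conn cbd dbd) (q4_ad hbd.1 dbd) (q4_ad hbd.2 dbd)
        (sbd.trans hQW) (hTW hdT) hh hdU
      by_cases haU : a ∈ U
      · obtain ⟨s, hs, hs'⟩ := kac haU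
        obtain ⟨t, ht, ht'⟩ := kad haU
        have est := hS s t (mem_union_left _ hs) (mem_union_left _ ht)
        subst est
        have h1 : s ∈ Qac ∧ s ∈ Qad := by
          rcases hs' with hs' | rfl
          · rcases ht' with ht' | rfl
            · exact ⟨hs', ht'⟩
            · exact absurd hs' hd.1
          · rcases ht' with ht' | h'
            · exact absurd ht' hc.2.2.1
            · exact absurd h' ncd
        have hbU : b ∈ U := by
          by_contra hbU
          have := hS s b (mem_union_left _ hs) (mem_union_right _ (mem_sdiff.2 ⟨by simp, hbU⟩))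
          rw [this] at h1
          exact hb.1 h1.1
        obtain ⟨u, hu, hu'⟩ := kbc hbU
        obtain ⟨v, hv, hv'⟩ := kbd hbU
        have e1 := hS s u (mem_union_left _ hs) (mem_union_left _ hu)
        have e2 := hS s v (mem_union_left _ hs) (mem_union_left _ hv)
        subst e1
        subst e2
        have h2 : s ∈ Qbc := by
          rcases hu' with hu' | rfl
          · exact hu'
          · exact absurd h1.1 hc.1
        have h3 : s ∈ Qbd := by
          rcases hv' with hv' | rfl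
          · exact hv'
          · exact absurd h1.2 hd.2.2.1
        exact hall s ⟨h1.1, h3, h1.2, h2⟩
      · have haS : a ∈ Nb (q4G G T) (Q ∪ T) U ∪ ({a, b} \ U) :=
          mem_union_right _ (mem_sdiff.2 ⟨by simp, haU⟩)
        have hbU : b ∈ U := by
          by_contra hbU
          exact nab (hS a b haS (mem_union_right _ (mem_sdiff.2 ⟨by simp, hbU⟩)))
        obtain ⟨u, hu, hu'⟩ := kbc hbU
        have e1 := hS a u haS (mem_union_left _ hu)
        subst e1
        rcases hu' with hu' | hu'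
        · exact ha.2.2.2 hu'
        · exact nac hu')
  -- the two sets
  have hroot : ∀ i : Fin 2, (a ∈ L i ∨ b ∈ L i) ∧ (c ∈ L i ∨ d ∈ L i) := by
    intro i
    obtain ⟨-, -, ⟨x, hx⟩, ⟨y, hy⟩⟩ := hL i
    rw [mem_inter, mem_insert, mem_singleton] at hx hy
    constructor
    · rcases hx.2 with rfl | rfl
      · exact Or.inl hx.1
      · exact Or.inr hx.1
    · rcases hy.2 with rfl | rfl
      · exact Or.inl hy.1
      · exact Or.inr hy.1
  have hdisj : ∀ x, x ∈ L 0 → x ∈ L 1 → False := fun x h0 h1 =>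
    (Finset.disjoint_left.1 (hLd 0 1 (by simp))) h0 h1
  have key : ∀ La Lb : Finset V, (∀ x, x ∈ La → x ∈ Lb → False) → La ⊆ Q ∪ T → Lb ⊆ Q ∪ T →
      Conn (q4G G T) La → Conn (q4G G T) Lb → a ∈ La → b ∈ Lb → (c ∈ La ∨ d ∈ La) →
      (c ∈ Lb ∨ d ∈ Lb) → ∃ L L', L ⊆ Q ∧ L' ⊆ Q ∧ Disjoint L L' ∧
      Conn G L ∧ Conn G L' ∧ Ad G a L ∧ Ad G b L' ∧
      ((Ad G c L ∧ Ad G d L') ∨ (Ad G d L ∧ Ad G c L')) := by
    intro La Lb hdis hLa hLb cLa cLb haL hbL hor1 hor2
    have hT4 : ∀ v ∈ T, v = a ∨ v = b ∨ v = c ∨ v = d := by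
      intro v hv
      rw [hTdef] at hv
      simpa using hv
    by_cases hcA : c ∈ La
    · have hdB : d ∈ Lb := by
        rcases hor2 with h' | h'
        · exact absurd h' (fun h'' => hdis c hcA h'')
        · exact h'
      obtain ⟨L1, g1, g2, g3, g4, g5⟩ := q4_shrink (Q := Q) cLa haL hcA nac haT hcT (by
        intro v hv
        rcases mem_union.1 (hLa hv) with h' | h'
        · exact Or.inr (Or.inr h')
        · rcases hT4 v h' with rfl | rfl | rfl | rfl
          · exact Or.inl rfl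
          · exact absurd hv (fun h'' => hdis _ h'' hbL)
          · exact Or.inr (Or.inl rfl)
          · exact absurd hv (fun h'' => hdis _ h'' hdB))
      obtain ⟨L2, k1, k2, k3, k4, k5⟩ := q4_shrink (Q := Q) cLb hbL hdB nbd hbT hdT (by
        intro v hv
        rcases mem_union.1 (hLb hv) with h' | h'
        · exact Or.inr (Or.inr h')
        · rcases hT4 v h' with rfl | rfl | rfl | rfl
          · exact absurd hv (fun h'' => hdis _ haL h'')
          · exact Or.inl rfl
          · exact absurd hv (fun h'' => hdis _ hcA h'')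
          · exact Or.inr (Or.inl rfl))
      exact ⟨L1, L2, g2, k2, Finset.disjoint_left.2 (fun v hv hv' => hdis v (g1 hv) (k1 hv')),
        g3, k3, g4, k4, Or.inl ⟨g5, k5⟩⟩
    · have hdA : d ∈ La := by
        rcases hor1 with h' | h'
        · exact absurd h' hcA
        · exact h'
      have hcB : c ∈ Lb := by
        rcases hor2 with h' | h'
        · exact h'
        · exact absurd h' (fun h'' => hdis d hdA h'')
      obtain ⟨L1, g1, g2, g3, g4, g5⟩ := q4_shrink (Q := Q) cLa haL hdA nad haT hdT (by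
        intro v hv
        rcases mem_union.1 (hLa hv) with h' | h'
        · exact Or.inr (Or.inr h')
        · rcases hT4 v h' with rfl | rfl | rfl | rfl
          · exact Or.inl rfl
          · exact absurd hv (fun h'' => hdis _ h'' hbL)
          · exact absurd hv hcA
          · exact Or.inr (Or.inl rfl))
      obtain ⟨L2, k1, k2, k3, k4, k5⟩ := q4_shrink (Q := Q) cLb hbL hcB nbc hbT hcT (by
        intro v hv
        rcases mem_union.1 (hLb hv) with h' | h'
        · exact Or.inr (Or.inr h')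
        · rcases hT4 v h' with rfl | rfl | rfl | rfl
          · exact absurd hv (fun h'' => hdis _ haL h'')
          · exact Or.inl rfl
          · exact Or.inr (Or.inl rfl)
          · exact absurd hv (fun h'' => hdis _ hdA h''))
      exact ⟨L1, L2, g2, k2, Finset.disjoint_left.2 (fun v hv hv' => hdis v (g1 hv) (k1 hv')),
        g3, k3, g4, k4, Or.inr ⟨g5, k5⟩⟩
  rw [← hQdef]
  by_cases ha0 : a ∈ L 0
  · have hb1 : b ∈ L 1 := by
      rcases (hroot 1).1 with h' | h'
      · exact absurd h' (fun h'' => hdisj a ha0 h'')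
      · exact h'
    exact key (L 0) (L 1) hdisj (hL 0).1 (hL 1).1 (hL 0).2.1 (hL 1).2.1 ha0 hb1 (hroot 0).2
      (hroot 1).2
  · have hb0 : b ∈ L 0 := by
      rcases (hroot 0).1 with h' | h'
      · exact absurd h' ha0
      · exact h'
    have ha1 : a ∈ L 1 := by
      rcases (hroot 1).1 with h' | h'
      · exact h'
      · exact absurd h' (fun h'' => hdisj b hb0 h'')
    exact key (L 1) (L 0) (fun x h1 h0 => hdisj x h0 h1) (hL 1).1 (hL 0).1 (hL 1).2.1 (hL 0).2.1
      ha1 hb0 (hroot 1).2 (hroot 0).2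

end ErdPos
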